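import Pool.Agent.H244.Zm14

/-!
# MP_d483fb_an: lattice actions which commute with a map with a nondegenerate periodic point

`SmallReps K N Γ`: the group `Γ` is finitely generated and, for every subgroup `H` of finite index
and every `m < N`, all representations `H → M_m(K)` have finite image.  By Margulis's
superrigidity theorem a lattice `Γ` of a group `G` as in the problem has this property for `K = ℝ`
and `N = min (d(G), v(G))`; it is proved here (parts 1 and 2) for the subgroups of finite index
of `SL_n(ℤ)`, with `N = n`, and for the lattices of `SL_n(ℂ)^r` commensurable with the group of the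
elementary matrices over the integers of a totally complex field, with `N = 2 (n - 1)`, which is
the bound `min (d(G), v(G))` of the conjecture (`n ≠ 4`), while `r(G) = n - 1`.

Part 3: the conjecture, in the full range of dimensions, for the `C¹` actions of these groups which
commute with some `C¹` map, not necessarily invertible, with one nondegenerate periodic point; and a
condition on the eigenvalues of the derivative at this point which gives the same conclusion in
all dimensions.  Part 4: actions which commute with an injective map with a hyperbolic periodic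
point are finite on the closure of its stable set.  Part 5: actions which commute with a transitive
Anosov diffeomorphism.
-/

set_option autoImplicit false

open scoped Manifold ContDiff Topology
open Set Filter NumberField Matrix

namespace Pool.Agent.Results.MP_d483fb_an.PeriodicEigenvalues

open Pool.Agent.H721R2 Pool.Agent.H789R2.AN
open Pool.Agent.H244.Zm (SmallReps EN gm HypSplit)

/-- `Γ` acts on `M` by `C¹` maps which commute with `f`. -/
structure Commuting (E : Type) [NormedAddCommGroup E] [NormedSpace ℝ E] {M : Type}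
    [TopologicalSpace M] [ChartedSpace E M] (f : M → M) {Γ : Type} [Group Γ]
    (α : Γ →* Equiv.Perm M) : Prop where
  smooth : ∀ γ, ContMDiff 𝓘(ℝ, E) 𝓘(ℝ, E) 1 (α γ)
  comm : ∀ γ x, α γ (f x) = f (α γ x)

/-- The derivative of `g` at the fixed point `p`, an endomorphism of the tangent space at `p`
(which is the space `E` in Mathlib). -/
noncomputable def der (E : Type) [NormedAddCommGroup E] [NormedSpace ℝ E] {M : Type}
    [TopologicalSpace M] [ChartedSpace E M] (g : M → M) (p : M) : E →L[ℝ] E :=
  mfderiv 𝓘(ℝ, E) 𝓘(ℝ, E) g p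

/-- **Eigenvalues at the periodic points of a map which commutes with a lattice action.**

(1) Let `n ≥ 3`.  The subgroups of finite index of `SL_n(ℤ)` have `SmallReps K n` for all fields
`K`.

(2) Let `n ≥ 3` and `k` a totally complex number field.  The subgroups of `SL_n(k)` commensurable
with the group `EN k n` generated by the elementary matrices with entries in `𝓞 k` have
`SmallReps ℝ (2 * (n - 1))`.

Now let `M` be a closed connected smooth manifold, `f` a `C¹` map `M → M`, `α` an action of the
group `Γ` on `M` by `C¹` maps which commute with `f`, `fᵏ(p) = p`, `A = D(fᵏ)(p)`, and `N ≥ 3`.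
`gm A μ` is the geometric multiplicity of the complex number `μ` as an eigenvalue of `A`.

(3) Let `p` be nondegenerate: `1` is not an eigenvalue of `A`.  If `α` has infinite image, then
`SmallReps ℝ N Γ` implies `N ≤ dim M`, and `SmallReps ℂ N Γ` implies that `A` has an eigenvalue of
geometric multiplicity at least `N`.

(4) Let `f` be injective and `p` hyperbolic: `A` contracts `S` and expands `U`, where `S ⊕ U` is the
tangent space.  If `SmallReps ℝ N Γ` and `dim S < N`, or if `SmallReps ℂ N Γ` and all eigenvalues of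
`A` of modulus `< 1` have geometric multiplicity `< N`, then a subgroup of finite index of `Γ` fixes
all points of the closure of the stable set `{w | f^(kn)(w) → p}`.

(5) Let `f` be a transitive Anosov diffeomorphism, `k ≥ 1` and `SmallReps ℂ N Γ`.  If `α` has
infinite image, then `A` has eigenvalues of geometric multiplicity at least `N` of modulus
`< 1` and of modulus `> 1`, for all `k ≥ 1` and all `p` with `fᵏ(p) = p`. -/
theorem result :
    (∀ (K : Type) [Field K] (n : ℕ), 3 ≤ n → ∀ Γ : Subgroup (SpecialLinearGroup (Fin n) ℤ),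
      Γ.FiniteIndex → SmallReps K n Γ) ∧
    (∀ (k : Type) [Field k] [NumberField k] [IsTotallyComplex k] (n : ℕ), 3 ≤ n →
      ∀ Γ : Subgroup (SpecialLinearGroup (Fin n) k),
        Subgroup.Commensurable Γ (EN k n) → SmallReps ℝ (2 * (n - 1)) Γ) ∧
    (∀ (E : Type) [NormedAddCommGroup E] [NormedSpace ℝ E] [FiniteDimensional ℝ E]
      (M : Type) [TopologicalSpace M] [T2Space M] [CompactSpace M] [ConnectedSpace M]
      [ChartedSpace E M] [IsManifold 𝓘(ℝ, E) ∞ M] (Γ : Type) [Group Γ] (α : Γ →* Equiv.Perm M)
      (f : M → M) (N k : ℕ) (p : M), Commuting E f α → 3 ≤ N → f^[k] p = p →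
      (ContMDiff 𝓘(ℝ, E) 𝓘(ℝ, E) 1 f → (∀ v, der E (f^[k]) p v = v → v = 0) →
        ¬ Finite α.range →
          (SmallReps ℝ N Γ → N ≤ Module.finrank ℝ E) ∧
          (SmallReps ℂ N Γ → ∃ μ : ℂ, N ≤ gm (der E (f^[k]) p).toLinearMap μ)) ∧
      (ContMDiff 𝓘(ℝ, E) 𝓘(ℝ, E) 1 f → Function.Injective f →
        ∀ S U : Submodule ℝ E, HypSplit (der E (f^[k]) p) S U →
          (SmallReps ℝ N Γ ∧ Module.finrank ℝ S < N) ∨
            (SmallReps ℂ N Γ ∧ ∀ μ : ℂ, ‖μ‖ < 1 → gm (der E (f^[k]) p).toLinearMap μ < N) →
          ∃ H : Subgroup Γ, H.FiniteIndex ∧ ∀ γ ∈ H,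
            ∀ w ∈ closure {w : M | Tendsto (fun n : ℕ => f^[k * n] w) atTop (𝓝 p)}, α γ w = w) ∧
      (∀ (F : Diffeomorph 𝓘(ℝ, E) 𝓘(ℝ, E) M M 1) (Es Eu), IsAnosov F Es Eu → ⇑F = f →
        TopTransitive f → 1 ≤ k → SmallReps ℂ N Γ → ¬ Finite α.range →
          (∃ μ : ℂ, ‖μ‖ < 1 ∧ N ≤ gm (der E (f^[k]) p).toLinearMap μ) ∧
          ∃ μ : ℂ, 1 < ‖μ‖ ∧ N ≤ gm (der E (f^[k]) p).toLinearMap μ)) := by
  refine ⟨fun K _ n hn Γ hΓ => Pool.Agent.H244.Zm.small_slz hn Γ hΓ K,
    fun k _ _ _ n hn Γ hΓ => Pool.Agent.H244.Zm.small_cx hn Γ hΓ, ?_⟩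
  intro E _ _ _ M _ _ _ _ _ _ Γ _ α f N k p hc hN hp
  have hα := hc.smooth
  have hcommk : ∀ γ x, α γ (f^[k] x) = f^[k] (α γ x) := fun γ x =>
    Pool.Agent.H244.Zm.comm_iter (σ := fun γ => α γ) hc.comm γ k x
  refine ⟨fun hf hnd hinf => ?_, fun hf hfi S U hsp h => ?_,
    fun F Es Eu hA hF htr hk hΓ hinf => ?_⟩
  · exact Pool.Agent.H244.Zm.nondeg hN α hα (iter_smooth f hf k) hcommk hp hnd hinf
  · obtain ⟨H, hH, h1⟩ := Pool.Agent.H244.Zm.hyp_point hN α hα (iter_smooth f hf k)
      (hfi.iterate k) hcommk hp hsp h
    refine ⟨H, hH, fun γ hγ w hw => h1 γ hγ w ?_⟩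
    simpa only [Function.iterate_mul] using hw
  · subst hF
    exact Pool.Agent.H244.Zm.anosov_geo F Es Eu hA htr hN hΓ α hα hc.comm hinf hk hp

end Pool.Agent.Results.MP_d483fb_an.PeriodicEigenvalues
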